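import Pool.Agent.MWH.StmtsA
import Pool.Agent.MWS.StmtsA

/-!
# Row JPC of block MWH (helper49)
-/

namespace Pool.Agent.MWH.H49

open Pool.Agent.Helper14_MV Pool.Agent.Helper2_MV Pool.Agent.MVO Pool.Agent.MWL Pool.Agent.MWS

/-- row JPC -/
theorem jpc (hL : Pool.Agent.MWS.LrnStmt) (h2 : Lt2Stmt) (hJ : JpxStmt) : JpcStmt := by
  intro β hβ k a b i u v F hV hLL hF s s' hs h1 h2'
  refine hJ β hβ k a b i F hV hF s s' hs ?_
  intro θ hle hN hT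
  exact ⟨fun j hj hA => hT (h1 θ hle hN ((h2 _ (hL β θ hβ.toBaseR hle) k a u v hLL).1 ⟨j, hj, hA⟩)),
    fun j hj hFj hA => hT (h2' θ hle hN j hj hFj hA)⟩

end Pool.Agent.MWH.H49
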